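import Pool.Agent.H188Z.Hodge

/-! The Hodge theorem for the strong de Rham Laplacian of the Hartogs triangle. -/

set_option autoImplicit false

namespace Pool.Agent.Results.MP_05a445_an.BHodgeStrong

open Pool.Agent.H188Z Pool.Agent.H188Z.St

theorem result :
    (∀ q : ℕ, HasGraph (St.dStrong ℝ St.hartogs q) St.IsStrongD) ∧
    ∀ q : ℕ, q ≤ 4 → HodgeAt (St.laplacian (St.dStrong ℝ St.hartogs) q) :=
  ⟨fun q => (st_graphs ℝ q).2, fun q _ => hodge_strong ℝ q⟩

end Pool.Agent.Results.MP_05a445_an.BHodgeStrong
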